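import Pool.Agent.WAQ.StmtsT

/-!
# Squad WAQ, row CON: letters are continuous with open domain
-/

set_option autoImplicit false

namespace Pool.Agent.WAQ.H30

open Classical

variable [Par]

theorem con (cna : CnaStmt) (cns : CnsStmt) (cnj : CnjStmt) : ConStmt := by
  intro F _ hF l z z' h V hV hz
  cases l with
  | act a b c e => exact cna F hF a b c e z z' h V hV hz
  | sw => exact cns F hF _ z z' (Or.inl rfl) h V hV hz
  | t0 => exact cns F hF _ z z' (Or.inr (Or.inl rfl)) h V hV hz
  | tp => exact cns F hF _ z z' (Or.inr (Or.inr (Or.inl rfl))) h V hV hz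
  | tm => exact cns F hF _ z z' (Or.inr (Or.inr (Or.inr rfl))) h V hV hz
  | jj => exact cnj F hF _ z z' rfl h V hV hz

end Pool.Agent.WAQ.H30

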