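import Pool.Agent.WAQ.StmtsL

/-!
# Squad WAQ, row UNI
-/

set_option autoImplicit false

namespace Pool.Agent.WAQ.H30

open Pool.Agent.WAQ
open Classical Polynomial WeierstrassCurve.Affine

variable [Par]

theorem un_sm_alg {F : Type} [Field F] {d : F} (c e p r : ℤ)
    (P Q g T1 T2 : Pt d) (h : c * p + e * r = 0) :
    sm c (P - sm p g - T1) + sm e (Q - sm r g - T2) = sm c P + sm e Q - (sm c T1 + sm e T2) := by
  simp only [sm_def]
  rw [smul_sub, smul_sub, smul_sub, smul_sub, smul_smul, smul_smul]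
  have h2 : (c * p) • g + (e * r) • g = 0 := by
    rw [← add_smul, h, zero_smul]
  have h3 : c • P - (c * p) • g - c • T1 + (e • Q - (e * r) • g - e • T2) =
      c • P + e • Q - (c • T1 + e • T2) - ((c * p) • g + (e * r) • g) := by abel
  rw [h3, h2, sub_zero]

theorem uni (zlv : ZlvStmt) (mck : MckStmt) (its : ItsStmt) : UniStmt := by
  intro F _ ϖ hL d hd P Q ρ hρ
  have hd0 : d ≠ 0 := by
    rintro rfl
    rcases hd with h | h
    · simp at h
    · have := hL.uni
      unfold qn at h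
      rw [norm_zero] at h
      linarith
  obtain ⟨g, hg⟩ := mck F ϖ hL d hd ρ hρ
  obtain ⟨p, T1, hT1, hp⟩ := hg P
  obtain ⟨r, T2, hT2, hr⟩ := hg Q
  obtain ⟨z1, z2, -⟩ := zlv F ϖ hL d hd0
  obtain ⟨-, i2, i3, -⟩ := its F ϖ hL d hd0
  have key : ∀ a b c e : ℤ, a * e - b * c = 1 → c * p + e * r = 0 →
      ∃ (a b c e : ℤ) (T : Pt d), a * e - b * c = 1 ∧ IsT T ∧ Lev ρ (sm c P + sm e Q - T) := by
    intro a b c e h1 h3
    refine ⟨a, b, c, e, sm c T1 + sm e T2, h1, i2 _ _ (i3 c _ hT1) (i3 e _ hT2), ?_⟩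
    rw [← un_sm_alg c e p r P Q g T1 T2 h3]
    exact (z1 ρ _ _ (z2 ρ c _ hp) (z2 ρ e _ hr)).1
  by_cases hδ : EuclideanDomain.gcd p r = 0
  · rw [EuclideanDomain.gcd_eq_zero_iff] at hδ
    refine key 1 0 0 1 (by ring) ?_
    rw [hδ.1, hδ.2]
    ring
  · obtain ⟨p', hp'⟩ := EuclideanDomain.gcd_dvd_left p r
    obtain ⟨r', hr'⟩ := EuclideanDomain.gcd_dvd_right p r
    have hb := EuclideanDomain.gcd_eq_gcd_ab p r
    generalize EuclideanDomain.gcd p r = δ at hδ hp' hr' hb
    generalize EuclideanDomain.gcdA p r = x at hb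
    generalize EuclideanDomain.gcdB p r = y at hb
    have h1 : p' * x + r' * y = 1 := by
      apply mul_left_cancel₀ hδ
      rw [mul_one]
      conv_rhs => rw [hb, hp', hr']
      ring
    refine key x y (-r') p' ?_ ?_
    · rw [← h1]; ring
    · rw [hp', hr']; ring

end Pool.Agent.WAQ.H30

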